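import Mathlib
import Pool.Agent.H6.RO

namespace Pool.Agent.Results.MP_49314d_al.NoUniversal

universe u

/-- `G` admits a total order with `x ≤ y → x z ≤ y z`. -/
def RightOrderable (G : Type*) [Group G] : Prop :=
  ∃ r : LinearOrder G, ∀ x y z : G, r.le x y → r.le (x * z) (y * z)

/-- `G` admits a total order invariant under multiplication on both sides. -/
def BiOrderable (G : Type*) [Group G] : Prop :=
  ∃ r : LinearOrder G, ∀ x y z : G, r.le x y → r.le (x * z) (y * z) ∧ r.le (z * x) (z * y)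

/-- `U` is a universal countable right-orderable group. -/
def UniversalRO (U : Type*) [Group U] : Prop :=
  Countable U ∧ RightOrderable U ∧
    ∀ (G : Type) [Group G], Countable G → RightOrderable G →
      ∃ f : G →* U, Function.Injective f

theorem result :
    (¬ ∃ (U : Type u) (_ : Group U), UniversalRO U) ∧
    ∀ (U : Type u) [Group U] [Countable U], ∃ (G : Type) (_ : Group G),
      Countable G ∧ (∃ a b : G, Subgroup.closure {a, b} = ⊤) ∧
      BiOrderable G ∧ ∀ f : G →* U, ¬ Function.Injective f := by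
  have main : ∀ (U : Type u) [Group U] [Countable U], ∃ (G : Type) (_ : Group G),
      Countable G ∧ (∃ a b : G, Subgroup.closure {a, b} = ⊤) ∧
      BiOrderable G ∧ ∀ f : G →* U, ¬ Function.Injective f := by
    intro U _ _
    by_contra hcon
    have hall : ∀ S : Set ℕ, ∃ φ : Subgroup.closure
        ({Pool.Agent.H6.RO.gx, Pool.Agent.H6.RO.gb} : Set (Pool.Agent.H6.RO.Gam S)) →* U,
        Function.Injective φ := by
      intro S
      by_contra hS
      apply hcon
      refine ⟨Subgroup.closure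
        ({Pool.Agent.H6.RO.gx, Pool.Agent.H6.RO.gb} : Set (Pool.Agent.H6.RO.Gam S)),
        inferInstance, ?_, ?_, ?_, fun f hf => hS ⟨f, hf⟩⟩
      · have h1 := FreeGroup.range_lift_eq_closure
          (f := fun b : Bool => cond b (Pool.Agent.H6.RO.gx : Pool.Agent.H6.RO.Gam S)
            Pool.Agent.H6.RO.gb)
        have h2 : Set.range (fun b : Bool => cond b
            (Pool.Agent.H6.RO.gx : Pool.Agent.H6.RO.Gam S) Pool.Agent.H6.RO.gb) =
            {Pool.Agent.H6.RO.gx, Pool.Agent.H6.RO.gb} := by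
          ext z
          simp [eq_comm, or_comm]
        rw [h2] at h1
        rw [← h1]
        haveI : Countable (FreeGroup Bool) := by
          unfold FreeGroup
          infer_instance
        exact Function.Surjective.countable (MonoidHom.rangeRestrict_surjective _)
      · refine ⟨⟨_, Subgroup.subset_closure (Set.mem_insert _ _)⟩,
          ⟨_, Subgroup.subset_closure (Set.mem_insert_of_mem _ (Set.mem_singleton _))⟩, ?_⟩
        rw [← Subgroup.closure_closure_coe_preimage]
        congr 1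
        ext z
        simp [Subtype.ext_iff]
      · refine ⟨LinearOrder.lift' (fun a : Subgroup.closure
          ({Pool.Agent.H6.RO.gx, Pool.Agent.H6.RO.gb} : Set (Pool.Agent.H6.RO.Gam S)) =>
          Pool.Agent.H6.RO.code a.1)
          (Pool.Agent.H6.RO.code_inj.comp Subtype.val_injective), ?_⟩
        intro x y z h
        exact ⟨Pool.Agent.H6.RO.right_mono x.1 y.1 z.1 h,
          Pool.Agent.H6.RO.left_mono x.1 y.1 z.1 h⟩
    choose φ hφ using hall
    have hx : ∀ S : Set ℕ, (Pool.Agent.H6.RO.gx : Pool.Agent.H6.RO.Gam S) ∈ Subgroup.closure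
        ({Pool.Agent.H6.RO.gx, Pool.Agent.H6.RO.gb} : Set (Pool.Agent.H6.RO.Gam S)) :=
      fun S => Subgroup.subset_closure (by simp)
    have hb : ∀ S : Set ℕ, (Pool.Agent.H6.RO.gb : Pool.Agent.H6.RO.Gam S) ∈ Subgroup.closure
        ({Pool.Agent.H6.RO.gx, Pool.Agent.H6.RO.gb} : Set (Pool.Agent.H6.RO.Gam S)) :=
      fun S => Subgroup.subset_closure (by simp)
    have hmem : ∀ (S : Set ℕ) (k : ℕ), k ∈ S ↔
        (φ S ⟨_, hx S⟩) * ((φ S ⟨_, hb S⟩) ^ (k + 1) * (φ S ⟨_, hx S⟩) *
          ((φ S ⟨_, hb S⟩) ^ (k + 1))⁻¹) =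
        ((φ S ⟨_, hb S⟩) ^ (k + 1) * (φ S ⟨_, hx S⟩) *
          ((φ S ⟨_, hb S⟩) ^ (k + 1))⁻¹) * (φ S ⟨_, hx S⟩) := by
      intro S k
      rw [← Pool.Agent.H6.RO.comm_iff (S := S) k]
      rw [← map_pow, ← map_mul, ← map_inv, ← map_mul, ← map_mul, ← map_mul,
        (hφ S).eq_iff, Subtype.ext_iff]
      rfl
    have hinj : Function.Injective (fun S : Set ℕ => (φ S ⟨_, hx S⟩, φ S ⟨_, hb S⟩)) := by
      intro S S' h
      simp only [Prod.mk.injEq] at h
      ext k
      rw [hmem S k, hmem S' k, h.1, h.2]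
    obtain ⟨e, he⟩ := exists_injective_nat (U × U)
    exact Function.cantor_injective _ (he.comp hinj)
  refine ⟨?_, main⟩
  rintro ⟨U, _, hc, _, hU⟩
  obtain ⟨G, _, hG, _, ⟨r, hr⟩, hf⟩ := main U
  obtain ⟨f, hf'⟩ := hU G hG ⟨r, fun x y z h => (hr x y z h).1⟩
  exact hf f hf'

end Pool.Agent.Results.MP_49314d_al.NoUniversal
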